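import Mathlib
import Pool.Agent.H78.QHom

set_option autoImplicit false

namespace Pool.Agent.Results.MP_c4712b_ag.Surface

open MvPolynomial

/-- An irreducible contractible surface in complex 3-space with a nonempty finite singular locus
whose equation is not quasihomogeneous in any polynomial coordinate system. -/
theorem result : ∃ p : MvPolynomial (Fin 3) ℂ, Irreducible p ∧
    ContractibleSpace {x : Fin 3 → ℂ // eval x p = 0} ∧
    {a : Fin 3 → ℂ | eval a p = 0 ∧ ∀ i, eval a (pderiv i p) = 0}.Nonempty ∧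
    {a : Fin 3 → ℂ | eval a p = 0 ∧ ∀ i, eval a (pderiv i p) = 0}.Finite ∧
    ∀ φ : MvPolynomial (Fin 3) ℂ ≃ₐ[ℂ] MvPolynomial (Fin 3) ℂ,
      ¬ ∃ (w : Fin 3 → ℕ) (d : ℤ), (∀ i, 0 < w i) ∧ ∀ t : ℂ, t ≠ 0 →
        ∀ x : Fin 3 → ℂ, eval (fun i => t ^ w i * x i) (φ p) = t ^ d * eval x (φ p) :=
  Pool.Agent.H78.QHom.main 0

end Pool.Agent.Results.MP_c4712b_ag.Surface
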